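import Pool.Agent.Y354.DC3.Stm3

/-!
# Project DC4, job DC4-PT: the pointwise inequality for the graph of the pairs related to a vertex
-/

set_option autoImplicit false

open Finset
open scoped Classical

namespace Pool.Agent.Y258.DC4

open Pool.Agent.Y354.DC3

/-! ### the pure statement -/

section pure

variable {ι : Type} [Fintype ι] (g : ι → ι → Prop)

/-- all edges contain `i` -/
def Zc (i : ι) : Prop := ∀ a b, g a b → a = i ∨ b = i

/-- all edges contain `i`, and there is one -/
def Zq (i : ι) : Prop := Zc g i ∧ ∃ j, g i j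

/-- the pair `i, j` is counted -/
def Cp (i j : ι) : Prop := j ≠ i ∧ (∀ a b, g a b → a = i ∨ b = i ∨ a = j ∨ b = j) ∧
  (∃ a, a ≠ i ∧ g j a) ∧ ∃ a, a ≠ j ∧ g i a

lemma card_pairs (R : ι → ι → Prop) : ∑ i, (univ.filter (fun j => R i j)).card =
    (univ.filter (fun p : ι × ι => R p.1 p.2)).card := by
  simp only [Finset.card_filter, Fintype.sum_prod_type]

lemma pure_ineq (hs : ∀ i j, g i j → g j i) (hi : ∀ i, ¬ g i i) :
    4 / 3 * (1 - I (∀ i j, ¬ g i j)) + 1 / 3 *
      ((univ.filter (fun i => Zq g i)).card : ℝ) ≤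
    ∑ i, ((2 - I (Zc g i)) * ((univ.filter (fun j => g i j)).card : ℝ) -
      5 / 6 * ((univ.filter (fun j => Cp g i j)).card : ℝ)) := by
  have hI1 : ∀ p : Prop, 0 ≤ I p ∧ I p ≤ 1 := by
    intro p
    unfold I
    split_ifs <;> norm_num
  -- the degrees, the number of counted pairs
  obtain ⟨D, hD⟩ : ∃ D : ℕ, D = (univ.filter (fun p : ι × ι => g p.1 p.2)).card := ⟨_, rfl⟩
  obtain ⟨CH, hCH⟩ : ∃ CH : ℕ, CH = (univ.filter (fun p : ι × ι => Cp g p.1 p.2)).card := ⟨_, rfl⟩
  obtain ⟨W, hW⟩ : ∃ W : ℝ, W = ∑ i, I (Zc g i) * ((univ.filter (fun j => g i j)).card : ℝ) :=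
    ⟨_, rfl⟩
  have hD' : ((∑ i, (univ.filter (fun j => g i j)).card : ℕ) : ℝ) = D := by
    rw [card_pairs, hD]
  have hCH' : ((∑ i, (univ.filter (fun j => Cp g i j)).card : ℕ) : ℝ) = CH := by
    rw [card_pairs, hCH]
  have hsum : ∑ i, ((2 - I (Zc g i)) * ((univ.filter (fun j => g i j)).card : ℝ) -
      5 / 6 * ((univ.filter (fun j => Cp g i j)).card : ℝ)) = 2 * D - W - 5 / 6 * CH := by
    rw [← hD', ← hCH', hW]
    push_cast
    rw [mul_sum, mul_sum, ← sum_sub_distrib, ← sum_sub_distrib]
    refine sum_congr rfl fun i _ => ?_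
    ring
  rw [hsum]
  by_cases he : ∀ i j, ¬ g i j
  · -- no edge
    have h1 : (univ.filter (fun i => Zq g i)).card = 0 := by
      rw [card_eq_zero, filter_eq_empty_iff]
      rintro i _ ⟨_, j, hj⟩
      exact he i j hj
    have h2 : CH = 0 := by
      rw [hCH, card_eq_zero, filter_eq_empty_iff]
      rintro ⟨i, j⟩ _ ⟨_, _, ⟨a, _, ha⟩, _⟩
      exact he _ _ ha
    have h3 : D = 0 := by
      rw [hD, card_eq_zero, filter_eq_empty_iff]
      rintro ⟨i, j⟩ _ h
      exact he _ _ h
    have h4 : W = 0 := by
      rw [hW]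
      refine sum_eq_zero fun i _ => ?_
      have : (univ.filter (fun j => g i j)).card = 0 := by
        rw [card_eq_zero, filter_eq_empty_iff]
        intro j _ h
        exact he _ _ h
      rw [this]
      simp
    have h5 : I (∀ i j, ¬ g i j) = 1 := if_pos he
    rw [h1, h2, h3, h4, h5]
    norm_num
  have h5 : I (∀ i j, ¬ g i j) = 0 := if_neg he
  rw [h5]
  push Not at he
  obtain ⟨a, b, hab⟩ := he
  have hne : a ≠ b := by
    rintro rfl
    exact hi _ hab
  by_cases hz : ∃ z, Zc g z
  · -- a star
    obtain ⟨z, hz⟩ := hz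
    -- all edges are incident with `z`
    obtain ⟨t, ht⟩ : ∃ t : ℕ, t = (univ.filter (fun j => g z j)).card := ⟨_, rfl⟩
    have hDt : D = 2 * t := by
      have h1 : univ.filter (fun p : ι × ι => g p.1 p.2) =
          (univ.filter (fun j => g z j)).image (fun j => (z, j)) ∪
          (univ.filter (fun j => g z j)).image (fun j => (j, z)) := by
        ext ⟨i, j⟩
        simp only [mem_filter, mem_univ, true_and, mem_union, mem_image, Prod.mk.injEq]
        constructor
        · intro h
          rcases hz i j h with rfl | rfl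
          · exact Or.inl ⟨j, h, rfl, rfl⟩
          · exact Or.inr ⟨i, hs _ _ h, rfl, rfl⟩
        · rintro (⟨j', h, rfl, rfl⟩ | ⟨i', h, rfl, rfl⟩)
          · exact h
          · exact hs _ _ h
      rw [hD, h1, card_union_of_disjoint, card_image_of_injective, card_image_of_injective, ← ht]
      · ring
      · intro x y h
        exact (Prod.mk.injEq _ _ _ _ ▸ h).1
      · intro x y h
        exact (Prod.mk.injEq _ _ _ _ ▸ h).2
      · rw [Finset.disjoint_left]
        rintro ⟨i, j⟩ h1 h2
        simp only [mem_filter, mem_univ, true_and, mem_image, Prod.mk.injEq] at h1 h2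
        obtain ⟨j', h3, rfl, rfl⟩ := h1
        obtain ⟨i', h4, rfl, rfl⟩ := h2
        exact hi _ h3
    have hWD : W ≤ D := by
      rw [hW, ← hD']
      push_cast
      refine sum_le_sum fun i _ => ?_
      have := (hI1 (Zc g i)).2
      have h0 : (0 : ℝ) ≤ ((univ.filter (fun j => g i j)).card : ℝ) := by positivity
      nlinarith
    -- counted pairs
    have hC : ∀ i j, Cp g i j → i ≠ z ∧ j ≠ z ∧ g z i ∧ g z j ∧ ∀ w, g z w → w = i ∨ w = j := by
      rintro i j ⟨h1, h2, ⟨c, h3, h4⟩, ⟨c', h6, h7⟩⟩
      have hiz : i ≠ z := by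
        rintro rfl
        rcases hz _ _ h4 with h | h
        · exact h1 h
        · exact h3 h
      have hjz : j ≠ z := by
        rintro rfl
        rcases hz _ _ h7 with h | h
        · exact hiz h
        · exact h6 h
      have h8 : c = z := (hz _ _ h4).resolve_left hjz
      have h9 : c' = z := (hz _ _ h7).resolve_left hiz
      subst h8
      subst h9
      refine ⟨hiz, hjz, hs _ _ h7, hs _ _ h4, fun w hw => ?_⟩
      rcases h2 _ _ hw with h | h | h | h
      · exact absurd h.symm hiz
      · exact Or.inl h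
      · exact absurd h.symm hjz
      · exact Or.inr h
    have hedge : ∃ w, g z w := by
      rcases hz a b hab with rfl | rfl
      · exact ⟨b, hab⟩
      · exact ⟨a, hs _ _ hab⟩
    have hZ2 : (univ.filter (fun i => Zq g i)).card ≤ 2 := by
      have h1 : univ.filter (fun i => Zq g i) ⊆ {a, b} := by
        intro i hi'
        rw [mem_filter] at hi'
        rw [mem_insert, mem_singleton]
        rcases hi'.2.1 a b hab with h | h
        · exact Or.inl h.symm
        · exact Or.inr h.symm
      exact (card_le_card h1).trans card_le_two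
    by_cases ht1 : t ≤ 1
    · -- one edge
      have ht0 : t = 1 := by
        obtain ⟨w, hw⟩ := hedge
        have : 0 < t := by
          rw [ht, card_pos]
          exact ⟨w, mem_filter.2 ⟨mem_univ _, hw⟩⟩
        omega
      have hCH0 : CH = 0 := by
        rw [hCH, card_eq_zero, filter_eq_empty_iff]
        rintro ⟨i, j⟩ _ h
        obtain ⟨h1, h2, h3, h4, h6⟩ := hC i j h
        have h7 : 1 < t := by
          rw [ht, one_lt_card_iff]
          exact ⟨i, j, mem_filter.2 ⟨mem_univ _, h3⟩, mem_filter.2 ⟨mem_univ _, h4⟩,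
            fun h' => h.1 h'.symm⟩
        omega
      have hD2 : (D : ℝ) = 2 := by
        rw [hDt, ht0]
        norm_num
      have hZ2' : ((univ.filter (fun i => Zq g i)).card : ℝ) ≤ 2 := by
        exact_mod_cast hZ2
      rw [hCH0, hD2]
      rw [hD2] at hWD
      push_cast
      linarith
    · -- at least two edges
      have ht2 : 2 ≤ t := by omega
      have hZz : ∀ i, Zc g i → i = z := by
        intro i hi'
        by_contra hiz
        have h1 : univ.filter (fun j => g z j) ⊆ {i} := by
          intro j hj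
          rw [mem_filter] at hj
          rw [mem_singleton]
          rcases hi' _ _ hj.2 with h | h
          · exact absurd h.symm hiz
          · exact h
        have h2 := card_le_card h1
        rw [← ht, card_singleton] at h2
        omega
      have hZ1 : (univ.filter (fun i => Zq g i)).card ≤ 1 := by
        have h1 : univ.filter (fun i => Zq g i) ⊆ {z} := by
          intro i hi'
          rw [mem_filter] at hi'
          rw [mem_singleton]
          exact hZz i hi'.2.1
        exact (card_le_card h1).trans (card_singleton _).le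
      have hWt : W = t := by
        rw [hW, sum_eq_single z]
        · have : I (Zc g z) = 1 := if_pos hz
          rw [this, one_mul, ht]
        · intro i _ hiz
          have : I (Zc g i) = 0 := if_neg fun h => hiz (hZz i h)
          rw [this, zero_mul]
        · intro h
          exact absurd (mem_univ z) h
      have hCH2 : CH ≤ 2 := by
        by_cases hex : ∃ i j, Cp g i j
        · obtain ⟨i₀, j₀, h₀⟩ := hex
          obtain ⟨_, _, _, _, h6⟩ := hC i₀ j₀ h₀
          have h1 : univ.filter (fun p : ι × ι => Cp g p.1 p.2) ⊆ {(i₀, j₀), (j₀, i₀)} := by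
            rintro ⟨i, j⟩ h
            rw [mem_filter] at h
            obtain ⟨h1, h2, h3, h4, _⟩ := hC i j h.2
            have hij : j ≠ i := h.2.1
            rw [mem_insert, mem_singleton, Prod.mk.injEq, Prod.mk.injEq]
            rcases h6 i h3 with h7 | h7 <;> rcases h6 j h4 with h8 | h8
            · exact absurd (h8.trans h7.symm) hij
            · exact Or.inl ⟨h7, h8⟩
            · exact Or.inr ⟨h7, h8⟩
            · exact absurd (h8.trans h7.symm) hij
          rw [hCH]
          exact (card_le_card h1).trans card_le_two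
        · push Not at hex
          have : CH = 0 := by
            rw [hCH, card_eq_zero, filter_eq_empty_iff]
            rintro ⟨i, j⟩ _ h
            exact hex i j h
          omega
      have h7 : (D : ℝ) = 2 * t := by
        rw [hDt]
        push_cast
        ring
      have h8 : (2 : ℝ) ≤ t := by exact_mod_cast ht2
      have h9 : (CH : ℝ) ≤ 2 := by exact_mod_cast hCH2
      have h10 : ((univ.filter (fun i => Zq g i)).card : ℝ) ≤ 1 := by
        exact_mod_cast hZ1
      rw [h7, hWt]
      linarith
  · -- no star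
    push Not at hz
    have hZ0 : (univ.filter (fun i => Zq g i)).card = 0 := by
      rw [card_eq_zero, filter_eq_empty_iff]
      rintro i _ ⟨h, _⟩
      exact hz i h
    have hW0 : W = 0 := by
      rw [hW]
      refine sum_eq_zero fun i _ => ?_
      have : I (Zc g i) = 0 := if_neg (hz i)
      rw [this, zero_mul]
    have key : ∀ i, ∃ c d, g c d ∧ c ≠ i ∧ d ≠ i := by
      intro i
      have h := hz i
      unfold Zc at h
      push Not at h
      obtain ⟨c, d, h1, h2, h3⟩ := h
      exact ⟨c, d, h1, h2, h3⟩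
    obtain ⟨c, d, hcd, hca, hda⟩ := key a
    obtain ⟨c', d', hcd', hcb, hdb⟩ := key b
    have hcd0 : c ≠ d := by
      rintro rfl
      exact hi _ hcd
    have hD4 : 4 ≤ D := by
      have h1 : ({(a, b), (b, a), (c, d), (d, c)} : Finset (ι × ι)) ⊆
          univ.filter (fun p : ι × ι => g p.1 p.2) := by
        intro p hp
        simp only [mem_insert, mem_singleton] at hp
        rw [mem_filter]
        refine ⟨mem_univ _, ?_⟩
        rcases hp with rfl | rfl | rfl | rfl
        · exact hab
        · exact hs _ _ hab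
        · exact hcd
        · exact hs _ _ hcd
      have h2 : ({(a, b), (b, a), (c, d), (d, c)} : Finset (ι × ι)).card = 4 := by
        rw [card_insert_of_notMem, card_insert_of_notMem, card_insert_of_notMem, card_singleton]
        · simp only [mem_singleton, Prod.mk.injEq, not_and]
          intro h
          exact absurd h hcd0
        · simp only [mem_insert, mem_singleton, Prod.mk.injEq, not_or, not_and]
          exact ⟨fun _ h => hda h.symm, fun _ h => hca h.symm⟩
        · simp only [mem_insert, mem_singleton, Prod.mk.injEq, not_or, not_and]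
          exact ⟨fun h => absurd h hne, fun h => absurd h.symm hca, fun h => absurd h.symm hda⟩
      rw [hD, ← h2]
      exact card_le_card h1
    have hCH8 : CH ≤ 8 := by
      have h1 : univ.filter (fun p : ι × ι => Cp g p.1 p.2) ⊆
          {(a, c), (a, d), (c, a), (d, a), (b, c'), (b, d'), (c', b), (d', b)} := by
        rintro ⟨i, j⟩ h
        rw [mem_filter] at h
        obtain ⟨_, _, h2, _, _⟩ := h
        simp only [mem_insert, mem_singleton, Prod.mk.injEq]
        have h3 := h2 _ _ hab
        have h4 := h2 _ _ hcd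
        have h5 := h2 _ _ hcd'
        rcases h3 with rfl | rfl | rfl | rfl
        · rcases h4 with h | h | h | h
          · exact absurd h hca
          · exact absurd h hda
          · exact Or.inl ⟨rfl, h.symm⟩
          · exact Or.inr (Or.inl ⟨rfl, h.symm⟩)
        · rcases h5 with h | h | h | h
          · exact absurd h hcb
          · exact absurd h hdb
          · exact Or.inr (Or.inr (Or.inr (Or.inr (Or.inl ⟨rfl, h.symm⟩))))
          · exact Or.inr (Or.inr (Or.inr (Or.inr (Or.inr (Or.inl ⟨rfl, h.symm⟩)))))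
        · rcases h4 with h | h | h | h
          · exact Or.inr (Or.inr (Or.inl ⟨h.symm, rfl⟩))
          · exact Or.inr (Or.inr (Or.inr (Or.inl ⟨h.symm, rfl⟩)))
          · exact absurd h hca
          · exact absurd h hda
        · rcases h5 with h | h | h | h
          · exact Or.inr (Or.inr (Or.inr (Or.inr (Or.inr (Or.inr (Or.inl ⟨h.symm, rfl⟩))))))
          · exact Or.inr (Or.inr (Or.inr (Or.inr (Or.inr (Or.inr (Or.inr ⟨h.symm, rfl⟩))))))
          · exact absurd h hcb
          · exact absurd h hdb
      rw [hCH]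
      exact (card_le_card h1).trans ((card_insert_le _ _).trans (Nat.succ_le_succ
        ((card_insert_le _ _).trans (Nat.succ_le_succ card_le_six))))
    have h6 : (4 : ℝ) ≤ D := by exact_mod_cast hD4
    have h7 : (CH : ℝ) ≤ 8 := by exact_mod_cast hCH8
    rw [hZ0, hW0]
    push_cast
    linarith

end pure

/-! ### translation -/

section trans

variable {V : Type} {N : V → V → V → Prop}

lemma card_succAbove {n : ℕ} (i : Fin (n + 1)) (Q : Fin (n + 1) → Prop) :
    (univ.filter (fun l : Fin n => Q (i.succAbove l))).card =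
      (univ.filter (fun j : Fin (n + 1) => j ≠ i ∧ Q j)).card := by
  rw [← card_image_of_injective _ (Fin.succAbove_right_injective (p := i))]
  congr 1
  ext j
  simp only [mem_image, mem_filter, mem_univ, true_and]
  constructor
  · rintro ⟨l, h, rfl⟩
    exact ⟨Fin.succAbove_ne i l, h⟩
  · rintro ⟨h1, h2⟩
    obtain ⟨l, rfl⟩ := Fin.exists_succAbove_eq h1
    exact ⟨l, h2, rfl⟩

/-- the graph of the pairs related to `u` -/
def gr (N : V → V → V → Prop) {n : ℕ} (x : Fin n → V) (u : V) (i j : Fin n) : Prop :=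
  i ≠ j ∧ N u (x i) (x j)

lemma Al_iff {n : ℕ} (x : Fin n → V) (u : V) : Al N x u ↔ ∀ i j, ¬ gr N x u i j := by
  unfold Al gr
  exact ⟨fun h i j h' => h i j h'.1 h'.2, fun h i j h1 h2 => h i j ⟨h1, h2⟩⟩

lemma Al_rm {n : ℕ} (x : Fin (n + 1) → V) (u : V) (i : Fin (n + 1)) :
    Al N (rm x i) u ↔ Zc (gr N x u) i := by
  unfold Al Zc gr rm
  constructor
  · rintro h a b ⟨h1, h2⟩
    by_contra hc
    push Not at hc
    obtain ⟨a', rfl⟩ := Fin.exists_succAbove_eq hc.1
    obtain ⟨b', rfl⟩ := Fin.exists_succAbove_eq hc.2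
    exact h a' b' (fun h' => h1 (by rw [h'])) h2
  · rintro h a b h1 h2
    rcases h _ _ ⟨fun h' => h1 (Fin.succAbove_right_injective h'), h2⟩ with h3 | h3
    · exact Fin.succAbove_ne _ _ h3
    · exact Fin.succAbove_ne _ _ h3

lemma Ad_rm (hN : Sy N) {n : ℕ} (x : Fin (n + 1) → V) (u : V) (i : Fin (n + 1)) :
    Ad N (rm x i) (x i) u ↔ ∃ j, gr N x u i j := by
  unfold Ad gr rm
  constructor
  · rintro ⟨l, h⟩
    exact ⟨i.succAbove l, (Fin.succAbove_ne i l).symm, hN.1 _ _ _ h⟩
  · rintro ⟨j, h1, h2⟩
    obtain ⟨l, rfl⟩ := Fin.exists_succAbove_eq h1.symm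
    exact ⟨l, hN.1 _ _ _ h2⟩

lemma S_rm (hN : Sy N) {n : ℕ} (x : Fin (n + 1) → V) (u : V) (i : Fin (n + 1)) :
    S N (rm x i) (x i) u = (univ.filter (fun j => gr N x u i j)).card := by
  unfold S rm
  rw [card_succAbove i (fun j => N (x i) u (x j))]
  congr 1
  ext j
  rw [mem_filter, mem_filter]
  unfold gr
  exact ⟨fun h => ⟨h.1, h.2.1.symm, hN.1 _ _ _ h.2.2⟩,
    fun h => ⟨h.1, h.2.1.symm, hN.1 _ _ _ h.2.2⟩⟩

lemma bb_rm (hN : Sy N) {k : ℕ} (x : Fin (k + 2) → V) (u : V) (i : Fin (k + 2)) :
    bb N (rm x i) (x i) u = (univ.filter (fun j => Cp (gr N x u) i j)).card := by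
  have h0 : (univ.filter (fun j => Cp (gr N x u) i j)).card =
      (univ.filter (fun l : Fin (k + 1) => Cp (gr N x u) i (i.succAbove l))).card := by
    rw [card_succAbove i (fun j => Cp (gr N x u) i j)]
    congr 1
    ext j
    simp only [mem_filter, mem_univ, true_and]
    exact ⟨fun h => ⟨h.1, h⟩, fun h => h.2⟩
  rw [h0]
  unfold bb
  congr 1
  ext j
  simp only [mem_filter, mem_univ, true_and]
  unfold Cp
  have e1 : Al N (rm (rm x i) j) u ↔ ∀ a b, gr N x u a b →
      a = i ∨ b = i ∨ a = i.succAbove j ∨ b = i.succAbove j := by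
    rw [Al_rm]
    unfold Zc gr rm
    constructor
    · rintro h a b ⟨h1, h2⟩
      by_cases ha : a = i
      · exact Or.inl ha
      by_cases hb : b = i
      · exact Or.inr (Or.inl hb)
      obtain ⟨a', rfl⟩ := Fin.exists_succAbove_eq ha
      obtain ⟨b', rfl⟩ := Fin.exists_succAbove_eq hb
      rcases h a' b' ⟨fun h' => h1 (by rw [h']), h2⟩ with h3 | h3
      · exact Or.inr (Or.inr (Or.inl (by rw [h3])))
      · exact Or.inr (Or.inr (Or.inr (by rw [h3])))
    · rintro h a b ⟨h1, h2⟩
      rcases h _ _ ⟨fun h' => h1 (Fin.succAbove_right_injective h'), h2⟩ with h3 | h3 | h3 | h3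
      · exact absurd h3 (Fin.succAbove_ne _ _)
      · exact absurd h3 (Fin.succAbove_ne _ _)
      · exact Or.inl (Fin.succAbove_right_injective h3)
      · exact Or.inr (Fin.succAbove_right_injective h3)
  have e2 : Ad N (rm (rm x i) j) (rm x i j) u ↔ ∃ a, a ≠ i ∧ gr N x u (i.succAbove j) a := by
    rw [Ad_rm hN]
    unfold gr rm
    constructor
    · rintro ⟨a, h1, h2⟩
      exact ⟨i.succAbove a, Fin.succAbove_ne _ _,
        fun h' => h1 (Fin.succAbove_right_injective h'), h2⟩
    · rintro ⟨a, h1, h2, h3⟩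
      obtain ⟨a', rfl⟩ := Fin.exists_succAbove_eq h1
      exact ⟨a', fun h' => h2 (by rw [h']), h3⟩
  have e3 : Ad N (rm (rm x i) j) (x i) u ↔ ∃ a, a ≠ i.succAbove j ∧ gr N x u i a := by
    unfold Ad gr rm
    constructor
    · rintro ⟨l, h⟩
      refine ⟨i.succAbove (j.succAbove l), fun h' => ?_, (Fin.succAbove_ne _ _).symm,
        hN.1 _ _ _ h⟩
      exact Fin.succAbove_ne _ _ (Fin.succAbove_right_injective h')
    · rintro ⟨a, h1, h2, h3⟩
      obtain ⟨a', rfl⟩ := Fin.exists_succAbove_eq h2.symm
      obtain ⟨l, rfl⟩ : ∃ l, j.succAbove l = a' :=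
        Fin.exists_succAbove_eq (fun h' => h1 (by rw [h']))
      exact ⟨l, hN.1 _ _ _ h3⟩
  rw [e1, e2, e3]
  exact ⟨fun h => ⟨Fin.succAbove_ne _ _, h⟩, fun h => h.2⟩

end trans

theorem s_pt : S_AL → S_PT := by
  intro _ V N hN k x u
  have h := pure_ineq (gr N x u)
    (fun i j h => ⟨h.1.symm, hN.2 _ _ _ h.2⟩) (fun i h => h.1 rfl)
  have e1 : I (Al N x u) = I (∀ i j, ¬ gr N x u i j) := congrArg I (propext (Al_iff x u))
  refine le_trans (le_of_eq ?_) (h.trans (le_of_eq ?_))
  · rw [e1]
    congr 3
    apply congrArg Finset.card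
    ext i
    rw [mem_filter, mem_filter, Al_rm, Ad_rm hN]
    exact Iff.rfl
  · refine sum_congr rfl fun i _ => ?_
    have e3 : I (Al N (rm x i) u) = I (Zc (gr N x u) i) := congrArg I (propext (Al_rm x u i))
    rw [e3, S_rm hN, bb_rm hN]

end Pool.Agent.Y258.DC4
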